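import Pool.Agent.Q297.PhiAtom

open MeasureTheory Q297.PhiL

namespace Pool.Agent.Results.MP_c7609e_pr.NotOnlyExponential

/-- **Property (R) does not characterise the exponential.**  All functions
`L(s) = p + (1 - p) e^{-c s}` with `0 ≤ p < 1`, `c > 0` belong to the class and have property (R);
hence the equivalence (R) `↔` `L` exponential fails. -/
theorem result :
    (∀ p c : ℝ, 0 ≤ p → p < 1 → 0 < c →
      ClassL (fun s => p + (1 - p) * Real.exp (-c * s)) ∧
      PropertyR gaussExp (fun s => p + (1 - p) * Real.exp (-c * s))) ∧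
    ¬ (∀ L : ℝ → ℝ, ClassL L →
      (PropertyR gaussExp L ↔ ∃ c : ℝ, 0 < c ∧ ∀ s, 0 ≤ s → L s = Real.exp (-c * s))) := by
  have h1 : ∀ p c : ℝ, 0 ≤ p → p < 1 → 0 < c →
      ClassL (fun s => p + (1 - p) * Real.exp (-c * s)) ∧
      PropertyR gaussExp (fun s => p + (1 - p) * Real.exp (-c * s)) :=
    fun p c hp0 hp1 hc => ⟨Lp_classL hp0 hp1 hc, Lp_propertyR hp0 hp1 hc⟩
  refine ⟨h1, fun h => ?_⟩
  obtain ⟨hL, hR⟩ := h1 (1 / 2) 1 (by norm_num) (by norm_num) one_pos
  obtain ⟨c, hc, he⟩ := (h _ hL).1 hR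
  -- compare the values for large `s`
  have h2 := he (Real.log 4 / c) (by positivity)
  have h3 : Real.exp (-c * (Real.log 4 / c)) = 1 / 4 := by
    have : -c * (Real.log 4 / c) = - Real.log 4 := by field_simp
    rw [this, Real.exp_neg, Real.exp_log (by norm_num)]
    norm_num
  rw [h3] at h2
  have h4 := Real.exp_pos (-1 * (Real.log 4 / c))
  norm_num at h2
  norm_num at h4
  linarith

end Pool.Agent.Results.MP_c7609e_pr.NotOnlyExponential
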